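import Pool.Agent.T63.CL.Neg
import Pool.Agent.N375.AV.D

/-!
# The Syracuse map on the negative odd integers near values of additive functions and their compositions

Let `F = f_1 ∘ ⋯ ∘ f_k` be a composition of functions dominated by the largest prime factor (`PD`), for
example additive functions `f` with `f (q^j) ≤ C q^j` at the prime powers, with different values at
different large primes (the sum of the prime factors), the largest prime factor itself, and Kempner's
function. There is `γ > 1 - H`, `H = 0.94995...`, such that the following holds if `0 < η ≤ 1`, `κ ≥ 0`,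
the function `G` has steps bounded below by a positive constant and growth at most `v ^ e`, for example
`G v = v`, and `e (1 - γ η) + κ < 1`. For all `m ≤ N` but `K N exp (- c (log N)^(1 / (k + 1)))`, for EVERY
odd `n` with `|n - G (F m)| ≤ F(m) ^ κ`, the Syracuse orbit of `-n` comes down to an absolute value
`≤ n ^ η`. So for `η < 1`, `n ≥ 2` the integer `-n` is not the element of least absolute value of a further
cycle (or of a divergent orbit). The values of `F` are taken with very large multiplicities and `F(m)` is in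
general much smaller than `m`; and so this does not follow from the number of the exceptional `n`.

Proof: the starting libraries `N375/AV` (preimages of thin sets under functions dominated by the largest
prime factor) and `TH235/UB` (the number of the integers of `[-X, X]` whose `3x+1` orbit avoids
`[-y, y]`).
-/

set_option autoImplicit false

namespace Pool.Agent.Results.MP_005f52_nt.AdditiveValues

open Pool.Agent.T63.CL
open Pool.Agent.N733.TG (Expanding expanding_pow)
open Pool.Agent.N375.AV (PD comp good pd_additive pd_largest pd_kempner)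

/-- For EVERY odd `n ≥ 1` with `|n - u| ≤ w` the Syracuse orbit of `-n` contains a term of absolute value
`≤ n ^ η`, and for `n ≥ 2`, `η < 1` a term of absolute value less than `n`. -/
def Falls (η u w : ℝ) : Prop :=
  ∀ n : ℕ, n % 2 = 1 → |(n : ℝ) - u| ≤ w →
    (∃ j : ℕ, |((Syr^[j] (-(n : ℤ)) : ℤ) : ℝ)| ≤ (n : ℝ) ^ η) ∧
    (2 ≤ n → η < 1 → ∃ j : ℕ, |Syr^[j] (-(n : ℤ))| < n)

theorem falls_of {η u w : ℝ} (h : ∀ n : ℕ, n % 2 = 1 → |(n : ℝ) - u| ≤ w → DownS n ((n : ℝ) ^ η)) :
    Falls η u w := by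
  intro n hn h1
  refine ⟨h n hn h1, fun h2 h3 => ?_⟩
  obtain ⟨j, hj⟩ := h n hn h1
  refine ⟨j, ?_⟩
  have h4 : (1 : ℝ) < n := by exact_mod_cast h2
  have h5 : |((Syr^[j] (-(n : ℤ)) : ℤ) : ℝ)| < n := by
    refine hj.trans_lt ?_
    calc (n : ℝ) ^ η < (n : ℝ) ^ (1 : ℝ) := Real.rpow_lt_rpow_of_exponent_lt h4 h3
      _ = n := Real.rpow_one _
  exact_mod_cast h5

/-- **The Syracuse map on the negative odd integers near the values of compositions of additive
functions.** There is `γ`, `1 - H < γ < 1`, such that for all compositions `F = comp fs` of functions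
dominated by the largest prime factor, `G` with steps `≥ a > 0` and growth at most `v ^ e`, `0 < η ≤ 1`,
`κ ≥ 0` with `e (1 - γ η) + κ < 1`: for all `m ≤ N` but `K N exp (- c (log N)^(1 / (k + 1)))`, for EVERY odd
`n` with `|n - G (F m)| ≤ F(m) ^ κ` the Syracuse orbit of `-n` contains a term of absolute value `≤ n ^ η`
(`Falls`). The additive functions with `f (q^j) ≤ C q^j` which are injective at the large primes, the
largest prime factor and Kempner's function are examples of such functions, and `α v ^ e` with `α > 0`,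
`e ≥ 1` is an example of `G`. -/
theorem result :
    ∃ γ : ℝ, 1 - H < γ ∧ γ < 1 ∧ ∀ fs : List (ℕ → ℕ), (∀ f ∈ fs, PD f) →
      ∀ (G : ℕ → ℝ) (e : ℝ), Expanding G e → ∀ η κ : ℝ, 0 < η → η ≤ 1 → 0 ≤ κ →
      e * (1 - γ * η) + κ < 1 →
      ∃ c K : ℝ, 0 < c ∧ ∀ N : ℕ, 1 ≤ N →
      ({m : ℕ | 1 ≤ m ∧ m ≤ N ∧ ¬ Falls η (G (comp fs m)) ((comp fs m : ℝ) ^ κ)}.ncard : ℝ) ≤
        K * N * Real.exp (-(c * Real.log N ^ ((1 : ℝ) / (fs.length + 1)))) := by
  obtain ⟨γ, hγ, hγ1, hp⟩ := neg_pow
  have hH := H_lt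
  refine ⟨γ, hγ, hγ1, fun fs hfs G e hG η κ hη hη1 hκ h1 => ?_⟩
  have hs : 0 ≤ 1 - γ * η := by nlinarith
  obtain ⟨c, K, hc, hcK⟩ := good (fun n : ℕ => n % 2 = 1) (fun n : ℕ => DownS n ((n : ℝ) ^ η))
    (fun n : ℕ => (n : ℝ)) fs hfs hG (s := 1 - γ * η) (κ := κ) hs hκ h1 (neg_powε (hp η hη hη1))
  refine ⟨c, K, hc, fun N hN => le_trans ?_ (hcK N hN)⟩
  have hfin : ∀ P : ℕ → Prop, {m : ℕ | 1 ≤ m ∧ m ≤ N ∧ P m}.Finite := fun P =>
    (Set.finite_Icc 1 N).subset fun m hm => ⟨hm.1, hm.2.1⟩
  have hsub : {m : ℕ | 1 ≤ m ∧ m ≤ N ∧ ¬ Falls η (G (comp fs m)) ((comp fs m : ℝ) ^ κ)} ⊆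
      {m : ℕ | 1 ≤ m ∧ m ≤ N ∧ ¬ ∀ t : ℕ, t % 2 = 1 →
        |(t : ℝ) - G (comp fs m)| ≤ (comp fs m : ℝ) ^ κ → DownS t ((t : ℝ) ^ η)} := by
    rintro m ⟨h2, h3, h4⟩
    exact ⟨h2, h3, fun h5 => h4 (falls_of h5)⟩
  exact_mod_cast Set.ncard_le_ncard hsub (hfin _)

end Pool.Agent.Results.MP_005f52_nt.AdditiveValues
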