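import Pool.Agent.T63.CL.Neg
import Pool.Agent.N790.CM.C

/-!
# The Syracuse map on the negative odd integers near all multiples of Carmichael's function of almost all integers

There is `γ > 1 - H`, `H = 0.94995...`, with the following property. Let `G` have steps bounded below by a
positive constant and growth at most `v ^ e`, for example `G v = v`, `0 < η ≤ 1`, `κ ≥ 0`, `B ≥ 1` and
`B (e (1 - γ η) + κ) < 1`. For all `u ≤ N` but `N / (log N) ^ A` and ALL multiples `w ≤ N ^ B` of Carmichael's
function `λ(u)` (for example Euler's function `φ(u)`), for EVERY odd `n` with `|n - G(w)| ≤ w ^ κ`, the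
Syracuse orbit of `-n` comes down to an absolute value `≤ n ^ η`; so for `η < 1`, `n ≥ 2` the integer `-n`
is not the element of least absolute value of a further cycle (or of a divergent orbit). The same is true
for the common multiples `w` of the numbers `F p`, `p` the large primes which divide `u` exactly once, if
`F` takes each positive value at boundedly many primes, for example `F p = |P(p)|` for a nonconstant
polynomial `P`. Some `w` are multiples of `λ(u)` for more than `N ^ (1 - δ)` of the `u ≤ N`, so that this does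
not follow from the number of the exceptional `n`.

Proof: the starting libraries `N790/CM` and `TH235/UB` (the number of the integers of `[-X, X]` whose `3x+1`
orbit avoids `[-y, y]`).
-/

set_option autoImplicit false

namespace Pool.Agent.Results.MP_005f52_nt.CarmichaelMultiples

open Pool.Agent.T63.CL
open Pool.Agent.N733.TG (Expanding expanding_pow)
open Pool.Agent.N790.CM (FewTimes Carries OnMultiples OnCarmichael fewTimes_pred fewTimes_poly
  keep_good)

/-- For EVERY odd `n ≥ 1` with `|n - u| ≤ w` the Syracuse orbit of `-n` contains a term of absolute value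
`≤ n ^ η`, and for `n ≥ 2`, `η < 1` a term of absolute value less than `n`. -/
def Falls (η u w : ℝ) : Prop :=
  ∀ n : ℕ, n % 2 = 1 → |(n : ℝ) - u| ≤ w →
    (∃ j : ℕ, |((Syr^[j] (-(n : ℤ)) : ℤ) : ℝ)| ≤ (n : ℝ) ^ η) ∧
    (2 ≤ n → η < 1 → ∃ j : ℕ, |Syr^[j] (-(n : ℤ))| < n)

theorem falls_of {η u w : ℝ} (h : ∀ n : ℕ, n % 2 = 1 → |(n : ℝ) - u| ≤ w → DownS n ((n : ℝ) ^ η)) :
    Falls η u w := by
  intro n hn h1
  refine ⟨h n hn h1, fun h2 h3 => ?_⟩
  obtain ⟨j, hj⟩ := h n hn h1
  refine ⟨j, ?_⟩
  have h4 : (1 : ℝ) < n := by exact_mod_cast h2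
  have h5 : |((Syr^[j] (-(n : ℤ)) : ℤ) : ℝ)| < n := by
    refine hj.trans_lt ?_
    calc (n : ℝ) ^ η < (n : ℝ) ^ (1 : ℝ) := Real.rpow_lt_rpow_of_exponent_lt h4 h3
      _ = n := Real.rpow_one _
  exact_mod_cast h5

/-- **The Syracuse map on the negative odd integers near all multiples of Carmichael's function of almost
all integers.** There is `γ`, `1 - H < γ < 1`, such that for `G` with steps `≥ a > 0` and growth at most
`v ^ e`, `0 < η ≤ 1`, `κ ≥ 0`, `B ≥ 1` with `B (e (1 - γ η) + κ) < 1`: for all `u ≤ N` but `N / (log N) ^ A`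
and ALL multiples `w ≤ N ^ B` of `λ(u)`, and also for all common multiples `w ≤ N ^ B` of the numbers `F p`,
`p > exp (√(log N))` a prime which divides `u` exactly once, `F` any function which takes each positive value
at boundedly many primes, for EVERY odd `n` with `|n - G w| ≤ w ^ κ` the Syracuse orbit of `-n` contains a
term of absolute value `≤ n ^ η` (`Falls`). Examples of `F` are `p - 1` and `|P(p)|`, `P` a nonconstant
polynomial, and `α v ^ e` with `α > 0`, `e ≥ 1` is an example of `G`. -/
theorem result :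
    ∃ γ : ℝ, 1 - H < γ ∧ γ < 1 ∧
      ∀ (G : ℕ → ℝ) (e : ℝ), Expanding G e → ∀ η κ B : ℝ, 0 < η → η ≤ 1 → 0 ≤ κ → 1 ≤ B →
      B * (e * (1 - γ * η) + κ) < 1 →
      OnMultiples B (fun w => Falls η (G w) ((w : ℝ) ^ κ)) := by
  obtain ⟨γ, hγ, hγ1, hp⟩ := neg_pow
  have hH := H_lt
  refine ⟨γ, hγ, hγ1, fun G e hG η κ B hη hη1 hκ hB h1 => ?_⟩
  have hs : 0 ≤ 1 - γ * η := by nlinarith
  have key : OnMultiples B (fun w => Falls η (G w) ((w : ℝ) ^ κ)) :=
    (keep_good (fun n : ℕ => n % 2 = 1) (fun n : ℕ => DownS n ((n : ℝ) ^ η))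
      (fun n : ℕ => (n : ℝ)) hG (s := 1 - γ * η) (κ := κ) (B := B) hs hκ hB h1
      (neg_powε (hp η hη hη1))).mono fun w _ hw => falls_of hw
  exact key

end Pool.Agent.Results.MP_005f52_nt.CarmichaelMultiples
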