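import Pool.Agent.T63.CL.Neg
import Pool.Agent.R482.ST.Ae

/-!
# The Syracuse map on the negative odd integers near powers, near iterates and near other sequences

There is `c > 1 - H`, `H = 0.94995...`, with the following property. Let `f_n`, `n = 0, 1, 2, …`, be positive
functions on `(a, ∞)`, `a ≥ 0`, such that `f_n(t) / t` is nondecreasing. For almost every `α > a`, for all
but finitely many `n`, the Syracuse orbits of ALL negative odd integers `-m` with `|m - f_n(α)| ≤ L_n` come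
down to absolute values `≤ y_n`, as soon as the sums of `L_n y_n ^ (-c) (1 + log (f_n(t) / f_n(s)))`
converge. For `f_n(t) = t ^ n` and `L_n = 1` this is the case with `y_n = (n + 1) ^ (3 / c)`: for almost
every `α > 1` the Syracuse orbits of all negative odd integers within distance `1` of `-α ^ n` come down to
values `≥ -(n + 1) ^ (3 / c)`, for all large `n`.

Proof: the starting libraries `R482/ST` (a Borel-Cantelli argument in the scale of the `f_n`) and `TH235/UB`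
(the number of the integers of `[-X, X]` whose `3x+1` orbit avoids `[-y, y]`).
-/

set_option autoImplicit false

namespace Pool.Agent.Results.MP_005f52_nt.NearPowers

open MeasureTheory Filter Pool.Agent.T63.CL

/-- the functions `f n` are positive on `(a, ∞)`, `a ≥ 0`, and `f n x / x` is nondecreasing there -/
def Starshaped (a : ℝ) (f : ℕ → ℝ → ℝ) : Prop :=
  0 ≤ a ∧ ∀ n : ℕ, ∀ x y : ℝ, a < x → x ≤ y → 0 < f n x ∧ f n x / x ≤ f n y / y

/-- For EVERY odd `m ≥ 1` with `|m - u| ≤ L` the Syracuse orbit of `-m` contains a term of absolute value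
`≤ y`. -/
def WindowDown (L y u : ℝ) : Prop :=
  ∀ m : ℕ, m % 2 = 1 → |(m : ℝ) - u| ≤ L → ∃ j : ℕ, |((Syr^[j] (-(m : ℤ)) : ℤ) : ℝ)| ≤ y

/-- **Theorem.** There is `c`, `1 - H < c < 1`, such that for `y_n ≥ 1` and `L_n ≥ 0`: let `f_n` be starshaped
functions on `(a, ∞)`, bounded below by a positive constant at each point, such that for all `t ≥ s > a` the
sum of `L_n y_n ^ (-c) (1 + log (f_n(t) / f_n(s)))` converges and `L_n ≤ f_n(s)` for all large `n`. Then for
almost every `α > a` and all but finitely many `n`, for EVERY odd `m` with `|m - f_n(α)| ≤ L_n` the Syracuse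
orbit of `-m` contains a term of absolute value `≤ y_n`. -/
theorem result : ∃ c : ℝ, 1 - H < c ∧ c < 1 ∧
    ∀ y L : ℕ → ℝ, (∀ n, 1 ≤ y n) → (∀ n, 0 ≤ L n) →
      ∀ (a : ℝ) (f : ℕ → ℝ → ℝ), Starshaped a f → (∀ s : ℝ, a < s → ∃ b : ℝ, 0 < b ∧ ∀ n, b ≤ f n s) →
        (∀ s : ℝ, a < s → ∀ᶠ n in atTop, L n ≤ f n s) →
        (∀ s t : ℝ, a < s → s ≤ t → Summable fun n =>
          L n * (y n) ^ (-c) * (1 + Real.log (f n t / f n s))) →
        ∃ N : Set ℝ, volume N = 0 ∧ ∀ α : ℝ, a < α → α ∉ N → ∃ n₀ : ℕ, ∀ n : ℕ, n₀ ≤ n →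
          WindowDown (L n) (y n) (f n α) := by
  obtain ⟨c, hc, hc1, A, hA, h⟩ := neg_base
  have hcount : ∀ y : ℕ → ℝ, (∀ n, 1 ≤ y n) → ∀ n, ∀ X : ℝ, 1 ≤ X →
      {m : ℕ | m ∈ {m : ℕ | m % 2 = 1 ∧ ¬ DownS m (y n)} ∧ (m : ℝ) ≤ X}.Finite ∧
      ({m : ℕ | m ∈ {m : ℕ | m % 2 = 1 ∧ ¬ DownS m (y n)} ∧ (m : ℝ) ≤ X}.ncard : ℝ) ≤
        (A * (y n) ^ (-c)) * X := fun y hy n X hX => h X (y n) hX (by linarith [hy n])
  have hnn : ∀ y : ℕ → ℝ, (∀ n, 1 ≤ y n) → ∀ n, 0 ≤ A * (y n) ^ (-c) := fun y hy n => by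
    have := hy n
    positivity
  refine ⟨c, hc, hc1, ?_⟩
  intro y L hy hL a f hf hb hLf hsum
  obtain ⟨N, hN, hN2⟩ := Pool.Agent.R482.ST.ae_windows
    (fun n => {m : ℕ | m % 2 = 1 ∧ ¬ DownS m (y n)})
    (fun m : ℕ => (m : ℝ)) hf hb (C := fun n => A * (y n) ^ (-c)) (hnn y hy) hL hLf
    (fun s t hs hst => by
      refine ((hsum s t hs hst).mul_left A).congr fun n => ?_
      ring) (hcount y hy)
  refine ⟨N, hN, fun α hα hαN => ?_⟩
  obtain ⟨n₀, hn⟩ := hN2 α hα hαN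
  refine ⟨n₀, fun n hn1 m hm hw => ?_⟩
  by_contra hcon
  exact absurd (hn n hn1 m ⟨hm, hcon⟩) (not_lt.2 hw)

end Pool.Agent.Results.MP_005f52_nt.NearPowers
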