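import Pool.Agent.T63.CL.Neg
import Pool.Agent.N671.DA.Win

/-!
# The Syracuse map on the negative odd integers near functions of the denominators of good approximations

Let `α_1, …, α_m` be real numbers. We consider the natural numbers `q` with `‖q α_j - β_j‖ ≤ c q^(-τ)` for
all `j`, `‖x‖` the distance to the nearest integer; for `β = 0`, `c = 1`, `τ = 1 / m` these include the
denominators of all best simultaneous approximations (the denominators of the convergents for `m = 1`).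
There is `γ > 1 - H`, `H = 0.94995...`, such that for all `α` in `ℝ^m` outside a set of Hausdorff dimension at
most `(m + e (1 - γ η) + κ) / (1 + τ)`, and all `c`, for all but finitely many such `q`, EVERY odd `n` with
`|n - G q| ≤ q ^ κ`, the Syracuse orbit of `-n` comes down to an absolute value `≤ n ^ η`; `G` has steps
bounded below by a positive constant and growth at most `v ^ e`, for example `a v^e`. For `τ = 1 / m` the
bound is less than `m` if `e (1 - γ η) + κ < 1`; and so the statement holds for almost all `α`.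

Proof: the starting libraries `N671/DA` and `TH235/UB` (the number of the integers of `[-X, X]` whose `3x+1`
orbit avoids `[-y, y]`).
-/

set_option autoImplicit false

namespace Pool.Agent.Results.MP_005f52_nt.SimultaneousApproximations

open Pool.Agent.T63.CL
open Pool.Agent.N671.DA (Solves Expanding expanding_pow approx_good)

/-- **The Syracuse map on the negative odd integers near the denominators of good approximations.** There is
`γ`, `1 - H < γ < 1`, such that for all `0 < η ≤ 1`, `G` with steps `≥ a > 0` and growth at most `v ^ e`,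
`0 ≤ κ ≤ 1`, `β` in `ℝ^m` and `τ > 0`: for all `α` in `ℝ^m` outside a set of Hausdorff dimension at most
`(m + e (1 - γ η) + κ) / (1 + τ)` and all `c`, for all large `q` with `‖q α_j - β_j‖ ≤ c q^(-τ)` for all `j`,
for EVERY odd `n` with `|n - G q| ≤ q ^ κ` the Syracuse orbit of `-n` contains a term of absolute value
`≤ n ^ η`, and if `n ≥ 2` and `η < 1` a term of absolute value less than `n`. The functions `a v^e` with
`a > 0`, `e ≥ 1` are examples of `G`. -/
theorem result :
    ∃ γ : ℝ, 1 - H < γ ∧ γ < 1 ∧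
      ∀ (G : ℕ → ℝ) (e : ℝ), Expanding G e → ∀ η κ : ℝ, 0 < η → η ≤ 1 → 0 ≤ κ → κ ≤ 1 →
      ∀ (m : ℕ) (β : Fin m → ℝ) (τ : ℝ), 0 < τ →
      ∃ E : Set (Fin m → ℝ),
        dimH E ≤ ENNReal.ofReal ((m + (e * (1 - γ * η) + κ)) / (1 + τ)) ∧
        ∀ α, α ∉ E → ∀ c : ℝ, ∃ Q : ℕ, ∀ q : ℕ, Q ≤ q → Solves α β q (c * (q : ℝ) ^ (-τ)) →
          ∀ n : ℕ, n % 2 = 1 → |(n : ℝ) - G q| ≤ (q : ℝ) ^ κ →
            (∃ j : ℕ, |((Syr^[j] (-(n : ℤ)) : ℤ) : ℝ)| ≤ (n : ℝ) ^ η) ∧
            (2 ≤ n → η < 1 → ∃ j : ℕ, |Syr^[j] (-(n : ℤ))| < n) := by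
  obtain ⟨γ, hγ, hγ1, hp⟩ := neg_pow
  have hH := H_lt
  refine ⟨γ, hγ, hγ1, fun G e hG η κ hη hη1 hκ hκ1 m β τ hτ => ?_⟩
  have hs : 0 ≤ 1 - γ * η := by nlinarith
  obtain ⟨E, hE, hE2⟩ := approx_good (fun n : ℕ => n % 2 = 1) (fun n : ℕ => DownS n ((n : ℝ) ^ η))
    (fun n : ℕ => (n : ℝ)) hG (s := 1 - γ * η) (κ := κ) hs hκ hκ1 (neg_powε (hp η hη hη1)) β hτ
  refine ⟨E, hE, fun α hα c => ?_⟩
  obtain ⟨Q, hQ⟩ := hE2 α hα c
  refine ⟨Q, fun q hq h1 n hn h2 => ?_⟩
  obtain ⟨j, hj⟩ := hQ q hq h1 n hn h2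
  refine ⟨⟨j, hj⟩, fun h3 h4 => ⟨j, ?_⟩⟩
  have h5 : (1 : ℝ) < n := by exact_mod_cast h3
  have h6 : |((Syr^[j] (-(n : ℤ)) : ℤ) : ℝ)| < n := by
    refine hj.trans_lt ?_
    calc (n : ℝ) ^ η < (n : ℝ) ^ (1 : ℝ) := Real.rpow_lt_rpow_of_exponent_lt h5 h4
      _ = n := Real.rpow_one _
  exact_mod_cast h6

end Pool.Agent.Results.MP_005f52_nt.SimultaneousApproximations
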